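import Pool.Agent.H.MP_e2735d_co.A

set_option autoImplicit false
open Filter Topology

namespace Pool.Agent.Results.MP_e2735d_co.Interval

/-- `|Aut G| / |End_s G|` for the graph (loops allowed) with adjacency relation `r`. -/
noncomputable def q {V : Type} (r : V → V → Prop) : ℝ :=
  (Nat.card {σ : Equiv.Perm V // ∀ u v, r u v ↔ r (σ u) (σ v)} : ℝ) /
    Nat.card {f : V → V // ∀ u v, r u v → r (f u) (f v)}

open Pool.Agent.H.MP_e2735d_co in
theorem result : {l : ℝ | ∃ (V : ℕ → Type) (r : ∀ k, V k → V k → Prop), (∀ k, Finite (V k)) ∧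
    (∀ k u v, r k u v → r k v u) ∧ Tendsto (fun k => Nat.card (V k)) atTop atTop ∧
    Tendsto (fun k => q (r k)) atTop (𝓝 l)} = Set.Icc 0 1 := by
  refine Set.ext fun l => ⟨fun ⟨V, r, _, _, _, h⟩ => isClosed_Icc.mem_of_tendsto h
    (.of_forall fun k => ⟨by unfold q; positivity, div_le_one_of_le₀ (Nat.cast_le.2
      (Nat.card_le_card_of_injective (fun σ => ⟨σ.1, fun u v => (σ.2 u v).1⟩) fun a b e =>
        Subtype.ext (DFunLike.coe_injective (congrArg Subtype.val e)))) (by positivity)⟩),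
    fun ⟨l0, l1⟩ => ?_⟩
  choose P h1 h2 h3 using fun k : ℕ => dense (k + 20) (l := max l (1 / (k + 1)))
    (lt_max_of_lt_right (by positivity)) (max_le l1 (by rw [div_le_one (by positivity)]; simp))
  have c := fun k => cards (P := P k) fun p hp => ⟨(h2 k p hp).1, by have := (h2 k p hp).2; omega⟩
  refine ⟨fun k => V (P k), fun _ => r, fun k => (c k).1, fun _ _ _ => r_symm,
    tendsto_atTop_mono (fun k => ?_) tendsto_id, tendsto_iff_dist_tendsto_zero.2 (squeeze_zero
      (fun _ => dist_nonneg) (fun k => ?_) (by simpa using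
        (tendsto_one_div_add_atTop_nhds_zero_nat (𝕜 := ℝ)).const_mul 2))⟩
  · obtain ⟨p, hp⟩ := h1 k
    have := (c k).2.1 p hp; have := (h2 k p hp).2
    simp only [id]; omega
  · have a := h3 k
    have b : 1 / ((k + 20 : ℕ) + 1 : ℝ) ≤ (k + 1 : ℝ)⁻¹ := by rw [one_div]; gcongr; simp
    have d : (0 : ℝ) < (k + 1 : ℝ)⁻¹ := by positivity
    rw [q, (c k).2.2, Real.dist_eq]
    rw [one_div (k + 1 : ℝ), abs_le] at a
    rw [abs_le]; grind

end Pool.Agent.Results.MP_e2735d_co.Interval
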